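import Pool.Agent.Helper37.WC.YA
import Pool.Agent.Helper37.WC.Z0

/-!
WC-27 (MP_b5afc9_al, project WC). Multiplying an element of `YA S A` by `m`.

`YA S A` is the set of the subgroups `A ⊔ zpowers y`, `y ∉ A` an element of a member, `y ∈ ct A` (file `Helper37/WC/YA.lean`). `sh A m (A ⊔ zpowers y) = A ⊔ zpowers (y*m)`.

* `YA_elem`: `Y ∈ YA S A`, `y ∈ Y`, `y ∉ A`: `Y = A ⊔ zpowers y`, `y` is in a member and in `ct A`. Proof: `Y = A ⊔ zpowers y0`; by `mem_sup_zp`, `y = a*y0` (`y*y0 ∈ A`, `y0*y0 = 1` by `Sys.sq`); `Sys.mul_mem_S` (`A ∈ S`). The two subgroups agree by `le_antisymm`.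
* `sh_eq`: the elements of `Y` outside `A` are `a*y`, `a ∈ A` (`mem_sup_zp`), and `(a*y)*m = a*(y*m)`.
* `sh_mem`: let `y ∈ Y`, `y ∉ A`. `y*m ∉ A` (otherwise `m ∈ Y`), in particular `≠ 1`; `m ≠ 1` (`m ∉ Y`); `y ∈ E`, `Cm A E` (`Sys.cm_of_elem`), `Cm E T` by `cm_of_common` (`y` and `m` commute), so `y*m` is in a member by `Sys.C`. `y*m ∈ ct A`.
* `sh_sh`: `m*m = 1`. `sh_ne`: if `A ⊔ zpowers (y*m) = A ⊔ zpowers y` then `m ∈ Y`.
* `sh_cj`: `p ∈ nz A` (only `cj p A = A` is needed), `p` commutes with `m`, `cj p Y = Y`: `cj p (sh A m Y) = sh A m Y` (`p*y*p⁻¹ ∈ Y`, not in `A`; use `sh_eq` with it, and `Subgroup.map_sup`, `MonoidHom.map_zpowers`).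
* `sh_ct`: for `p` commuting with `A` and `m`: `p ∈ ct (sh A m Y) ↔ p ∈ ct Y`.
-/

namespace Pool.Agent.Helper72.WC

open Pool.Agent.Helper37.WC

variable {G : Type*} [Group G] [Finite G] {S : Set (Subgroup G)} {q : ℕ} {A B T Y M : Subgroup G}

/-- `A ⊔ zpowers (y*m)` for `Y = A ⊔ zpowers y` -/
def sh (A : Subgroup G) (m : G) (Y : Subgroup G) : Subgroup G :=
  A ⊔ Subgroup.closure {x | ∃ y ∈ Y, y ∉ A ∧ x = y * m}

omit [Finite G] in
private theorem out34 (hY : Y ∈ YA S A) : ∃ y ∈ Y, y ∉ A := by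
  obtain ⟨y, hyA, -, -, rfl⟩ := hY
  exact ⟨y, (le_sup_right : Subgroup.zpowers y ≤ A ⊔ Subgroup.zpowers y) (Subgroup.mem_zpowers y), hyA⟩

private theorem elem34 (h : Sys S q) (hA : A ∈ S) (hY : Y ∈ YA S A) {y : G} (hy : y ∈ Y) (hyA : y ∉ A) :
    Y = A ⊔ Subgroup.zpowers y ∧ (∃ E ∈ S, y ∈ E) ∧ y ∈ ct A := by
  obtain ⟨y0, hy0A, ⟨E, hE, hy0E⟩, hc, rfl⟩ := hY
  have hsq := h.sq E hE y0 hy0E
  have ha : y * y0 ∈ A := by
    rcases (mem_sup_zp h hE hy0E hc).1 hy with h1 | h1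
    · exact absurd h1 hyA
    · exact h1
  have hyy : y = (y * y0) * y0 := by rw [mul_assoc, hsq, mul_one]
  have hAc : y * y0 ∈ ct A := fun a ha' => h.comm hA _ ha a ha'
  refine ⟨le_antisymm (sup_le le_sup_left ?_) (sup_le le_sup_left ?_), ?_, ?_⟩
  · rw [Subgroup.zpowers_le]
    have h1 : y0 = (y * y0)⁻¹ * y := by
      rw [mul_inv_rev, inv_mul_cancel_right]
      exact (inv_eq_of_mul_eq_one_right hsq).symm
    have h2 : (y * y0)⁻¹ * y ∈ A ⊔ Subgroup.zpowers y := Subgroup.mul_mem _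
      ((le_sup_left : A ≤ A ⊔ Subgroup.zpowers y) (A.inv_mem ha))
      ((le_sup_right : Subgroup.zpowers y ≤ A ⊔ Subgroup.zpowers y) (Subgroup.mem_zpowers y))
    exact h1 ▸ h2
  · rw [Subgroup.zpowers_le]
    exact hy
  · rw [hyy]
    refine h.mul_mem_S hA hE hy0E hc ha ?_
    rw [← hyy]
    rintro rfl
    exact hyA A.one_mem
  · rw [hyy]
    exact (ct A).mul_mem hAc hc

private theorem eq34 (h : Sys S q) (hA : A ∈ S) (hY : Y ∈ YA S A) {m y : G} (hy : y ∈ Y) (hyA : y ∉ A) :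
    sh A m Y = A ⊔ Subgroup.zpowers (y * m) := by
  obtain ⟨h1, ⟨E, hE, hyE⟩, hc⟩ := elem34 h hA hY hy hyA
  have hsq := h.sq E hE y hyE
  unfold sh
  refine le_antisymm (sup_le le_sup_left ?_) (sup_le le_sup_left ?_)
  · rw [Subgroup.closure_le]
    rintro x ⟨y', hy', hy'A, rfl⟩
    have ha : y' * y ∈ A := by
      rw [h1] at hy'
      rcases (mem_sup_zp h hE hyE hc).1 hy' with h2 | h2
      · exact absurd h2 hy'A
      · exact h2
    have h3 : y' * m = (y' * y) * (y * m) := by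
      rw [mul_assoc, ← mul_assoc y y m, hsq, one_mul]
    rw [h3]
    exact Subgroup.mul_mem _ ((le_sup_left : A ≤ A ⊔ Subgroup.zpowers (y * m)) ha)
      ((le_sup_right : Subgroup.zpowers (y * m) ≤ A ⊔ Subgroup.zpowers (y * m)) (Subgroup.mem_zpowers _))
  · rw [Subgroup.zpowers_le]
    exact (le_sup_right : _ ≤ A ⊔ Subgroup.closure {x | ∃ y ∈ Y, y ∉ A ∧ x = y * m})
      (Subgroup.subset_closure ⟨y, hy, hyA, rfl⟩)

omit [Finite G] in
private theorem ct34 {p z : G} (hp : p ∈ ct A) : p ∈ ct (A ⊔ Subgroup.zpowers z) ↔ p * z = z * p := by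
  constructor
  · intro h1
    exact h1 z ((le_sup_right : Subgroup.zpowers z ≤ A ⊔ Subgroup.zpowers z) (Subgroup.mem_zpowers z))
  · intro h1
    have h2 : A ⊔ Subgroup.zpowers z ≤ Subgroup.centralizer {p} := by
      refine sup_le ?_ ?_
      · intro a ha
        rw [Subgroup.mem_centralizer_iff]
        rintro _ rfl
        exact hp a ha
      · rw [Subgroup.zpowers_le, Subgroup.mem_centralizer_iff]
        rintro _ rfl
        exact h1
    intro x hx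
    exact (Subgroup.mem_centralizer_iff.1 (h2 hx)) p rfl

theorem YA_elem (h : Sys S q) (hA : A ∈ S) (hY : Y ∈ YA S A) {y : G} (hy : y ∈ Y) (hyA : y ∉ A) :
    Y = A ⊔ Subgroup.zpowers y ∧ (∃ E ∈ S, y ∈ E) ∧ y ∈ ct A := by
  exact elem34 h hA hY hy hyA

theorem YA_out (hY : Y ∈ YA S A) : ∃ y ∈ Y, y ∉ A := by
  exact out34 hY

theorem sh_eq (h : Sys S q) (hA : A ∈ S) (hY : Y ∈ YA S A) {m y : G} (hm : m ∈ ct Y) (hy : y ∈ Y) (hyA : y ∉ A) :
    sh A m Y = A ⊔ Subgroup.zpowers (y * m) := by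
  exact eq34 h hA hY hy hyA

theorem sh_mem (h : Sys S q) (hno : ∀ A B D, NR S A B → D ∈ S → Cm D A → Cm D B → False) (hA : A ∈ S) (hY : Y ∈ YA S A)
    (hT : T ∈ S) (hAT : Cm A T) {m : G} (hmT : m ∈ T) (hm : m ∈ ct Y) (hmY : m ∉ Y) : sh A m Y ∈ YA S A := by
  obtain ⟨y, hy, hyA⟩ := out34 hY
  obtain ⟨h1, ⟨E, hE, hyE⟩, hc⟩ := elem34 h hA hY hy hyA
  have hAY := YA.ge hY
  have hy1 : y ≠ 1 := fun h2 => hyA (h2 ▸ A.one_mem)
  have hm1 : m ≠ 1 := fun h2 => hmY (h2 ▸ Y.one_mem)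
  have hymA : y * m ∉ A := by
    intro h2
    apply hmY
    have h3 : m = y⁻¹ * (y * m) := by group
    rw [h3]
    exact Y.mul_mem (Y.inv_mem hy) (hAY h2)
  have hAE := h.cm_of_elem hA hE hyE hy1 hc
  have hET := cm_of_common h hno hA hE hT hAE hAT hyE hy1 hmT hm1 (hm y hy).symm
  rw [eq34 h hA hY hy hyA]
  refine ⟨y * m, hymA, h.C E hE T hT hET y hyE m hmT (fun h2 => hymA (h2 ▸ A.one_mem)), ?_, rfl⟩
  exact (ct A).mul_mem hc fun a ha => (hAT a ha m hmT).symm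

theorem sh_sh (h : Sys S q) (hno : ∀ A B D, NR S A B → D ∈ S → Cm D A → Cm D B → False) (hA : A ∈ S) (hY : Y ∈ YA S A)
    (hT : T ∈ S) (hAT : Cm A T) {m : G} (hmT : m ∈ T) (hm : m ∈ ct Y) (hmY : m ∉ Y) : sh A m (sh A m Y) = Y := by
  have hsh := sh_mem h hno hA hY hT hAT hmT hm hmY
  obtain ⟨y, hy, hyA⟩ := out34 hY
  obtain ⟨h1, -, -⟩ := elem34 h hA hY hy hyA
  have hAY := YA.ge hY
  have hymA : y * m ∉ A := by
    intro h2
    apply hmY
    have h3 : m = y⁻¹ * (y * m) := by group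
    rw [h3]
    exact Y.mul_mem (Y.inv_mem hy) (hAY h2)
  have hym : y * m ∈ sh A m Y := by
    rw [eq34 h hA hY hy hyA]
    exact (le_sup_right : Subgroup.zpowers (y * m) ≤ A ⊔ Subgroup.zpowers (y * m)) (Subgroup.mem_zpowers _)
  rw [eq34 h hA hsh hym hymA, mul_assoc, h.sq T hT m hmT, mul_one]
  exact h1.symm

theorem sh_ne (h : Sys S q) (hA : A ∈ S) (hY : Y ∈ YA S A) {m : G} (hm : m ∈ ct Y) (hmY : m ∉ Y) : sh A m Y ≠ Y := by
  intro h2
  obtain ⟨y, hy, hyA⟩ := out34 hY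
  have hym : y * m ∈ sh A m Y := by
    rw [eq34 h hA hY hy hyA]
    exact (le_sup_right : Subgroup.zpowers (y * m) ≤ A ⊔ Subgroup.zpowers (y * m)) (Subgroup.mem_zpowers _)
  rw [h2] at hym
  apply hmY
  have h3 : m = y⁻¹ * (y * m) := by group
  rw [h3]
  exact Y.mul_mem (Y.inv_mem hy) hym

theorem sh_cj (h : Sys S q) (hA : A ∈ S) (hY : Y ∈ YA S A) {m p : G} (hm : m ∈ ct Y) (hp : p ∈ nz A) (hpm : p * m = m * p)
    (hpY : cj p Y = Y) : cj p (sh A m Y) = sh A m Y := by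
  obtain ⟨y, hy, hyA⟩ := out34 hY
  have hcA : cj p A = A := mem_nz.1 hp
  have hpy : p * y * p⁻¹ ∈ Y := by
    rw [← hpY]
    exact conj_mem_cj hy
  have hpyA : p * y * p⁻¹ ∉ A := by
    intro h2
    rw [← hcA] at h2
    exact hyA (conj_mem_cj_iff.1 h2)
  have h3 : cj p (A ⊔ Subgroup.zpowers (y * m)) = A ⊔ Subgroup.zpowers (p * y * p⁻¹ * m) := by
    have h4 : cj p (A ⊔ Subgroup.zpowers (y * m)) = cj p A ⊔ Subgroup.zpowers (p * (y * m) * p⁻¹) := by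
      unfold cj
      rw [Subgroup.map_sup, MonoidHom.map_zpowers]
      rfl
    have h5 : p * (y * m) * p⁻¹ = p * y * p⁻¹ * m := by
      have h6 : m * p⁻¹ = p⁻¹ * m := by
        rw [eq_inv_mul_iff_mul_eq, ← mul_assoc, hpm, mul_inv_cancel_right]
      rw [mul_assoc, mul_assoc, h6]
      group
    rw [h4, hcA, h5]
  rw [eq34 h hA hY hy hyA, h3, ← eq34 h hA hY hpy hpyA, eq34 h hA hY hy hyA]

theorem sh_ct (h : Sys S q) (hA : A ∈ S) (hY : Y ∈ YA S A) {m p : G} (hm : m ∈ ct Y) (hp : p ∈ ct A) (hpm : p * m = m * p) :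
    p ∈ ct (sh A m Y) ↔ p ∈ ct Y := by
  obtain ⟨y, hy, hyA⟩ := out34 hY
  obtain ⟨h1, -, -⟩ := elem34 h hA hY hy hyA
  have e1 : p ∈ ct Y ↔ p * y = y * p := by
    rw [h1]
    exact ct34 hp
  rw [eq34 h hA hY hy hyA, ct34 hp, e1]
  constructor
  · intro h2
    have h3 : p * y * m = y * p * m := by
      rw [mul_assoc, h2, mul_assoc, mul_assoc, hpm]
    exact mul_right_cancel h3
  · intro h2
    rw [← mul_assoc, h2, mul_assoc, mul_assoc, hpm]

end Pool.Agent.Helper72.WC
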