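import Pool.Agent.Helper72.WC.Sh
import Pool.Agent.Helper37.WC.YAeven
import Pool.Agent.Helper37.WC.CliqCard
import Pool.Agent.Helper37.WC.Par

/-!
WC-28 (MP_b5afc9_al, project WC). Under Theorem A (`hno`) a clique group containing `A` has order at most `q ^ 2`. `[x, y] = x*y*x⁻¹*y⁻¹`.

Suppose `q ^ 2 < card M`. Let `Fix = {Y ∈ YA S A | ∀ p ∈ M, cj p Y = Y}`. `M ≤ nz A` (`M` is abelian and contains `A`), `M` is a `2`-group (`Cl.isP`), acts on `YA S A` (`YA_cj_mem`); by `par_fix` and `YA_even` `Fix.ncard` is even.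

(1) `idx`: for `Y ∈ Fix` there is `m ∈ M ⊓ ct Y`, `m ∉ A`. Let `y ∈ Y`, `y ∉ A` (`YA_out`). For `p ∈ M`: `p*y*p⁻¹ ∈ Y`, `∉ A` (else `y ∈ A`), so `[p, y] ∈ A` (`YA_elem`, `mem_sup_zp`). If `[p, y] = [p', y]` then `p⁻¹*p'` commutes with `y`, and it commutes with `A`, so it is in
`M ⊓ ct Y`. So `card M ≤ card (M ⊓ ct Y) * card A`; if `M ⊓ ct Y ≤ A` then `card M ≤ q*q`, contradiction.

(2) Choose `m0 ∈ M`, `m0 ∉ A` and let `Y0 = A ⊔ zpowers m0`; `Y0 ∈ Fix` (`Cl.mem`; `cj p Y0 = Y0` since `M` is abelian). Choose a function `g : Subgroup G → G` with: `g M = m0` and for every `H ≠ M` for which there is an element in `H`, not in `A`, `g H ∈ H`, `g H ∉ A`.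
Define `f Y = sh A (g (M ⊓ ct Y)) Y` on `T = Fix \ {Y0}`. For `Y ∈ T` put `m = g (M ⊓ ct Y)`. By (1) `m ∈ M ⊓ ct Y`, `m ∉ A` (if `M ⊓ ct Y = M` then `m = m0`). `m ∉ Y`: otherwise `Y = A ⊔ zpowers m ≤ M` by `YA_elem`, so `M ⊓ ct Y = M`, `m = m0`, `Y = Y0`. The member `T' ≤ M` containing
`m` commutes with `A`. So `sh A m Y ∈ YA S A` (`sh_mem`), fixed by `M` (`sh_cj`), and `≠ Y` (`sh_ne`). `f Y ≠ Y0`: with `y ∈ Y \ A`, `f Y = A ⊔ zpowers (y*m)`; if it is `Y0 ≤ M` then `y*m ∈ M`, so `y ∈ M`, so `Y ≤ M` (`YA_elem`), so `M ⊓ ct Y = M`, `m = m0`, `y*m0 ∈ Y0`, so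
`y ∈ Y0`, `Y = Y0` by `YA_elem` twice. `M ⊓ ct (f Y) = M ⊓ ct Y` by `sh_ct`, so `f (f Y) = sh A m (sh A m Y) = Y` (`sh_sh`). By `even_of_free` `T.ncard` is even, so `Fix.ncard = T.ncard + 1` is odd. Contradiction.
-/

namespace Pool.Agent.Helper72.WC

open Pool.Agent.Helper37.WC

variable {G : Type*} [Group G] [Finite G] {S : Set (Subgroup G)} {q : ℕ} {A B T Y M : Subgroup G}

private theorem ct_sup (h : Sys S q) {E : Subgroup G} (hE : E ∈ S) {y c : G} (hy : y ∈ E) (hyc : y ∈ ct A)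
    (hc : c ∈ ct A) (hcy : c * y = y * c) : c ∈ ct (A ⊔ Subgroup.zpowers y) := by
  intro x hx
  rcases (mem_sup_zp h hE hy hyc).1 hx with h1 | h1
  · exact hc x h1
  · have h2 : x = (x * y) * y := by rw [mul_assoc, h.sq E hE y hy, mul_one]
    rw [h2]
    calc c * (x * y * y) = (c * (x * y)) * y := by group
      _ = (x * y) * (c * y) := by rw [hc _ h1]; group
      _ = x * y * y * c := by rw [hcy]; group

theorem idx (h : Sys S q) (hA : A ∈ S) (hM : Cl S M) (hAM : A ≤ M) (hY : Y ∈ YA S A) (hfix : ∀ p ∈ M, cj p Y = Y) :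
    Nat.card M ≤ Nat.card (M ⊓ ct Y : Subgroup G) * q := by
  classical
  obtain ⟨y, hy, hyA⟩ := YA_out hY
  obtain ⟨hYe, ⟨E, hE, hyE⟩, hyc⟩ := YA_elem h hA hY hy hyA
  have hMA : ∀ p ∈ M, p ∈ ct A := fun p hp a ha => hM.comm _ hp _ (hAM ha)
  have hyi : y⁻¹ = y := h.inv hE hyE
  have hpA : ∀ p ∈ M, p * y * p⁻¹ * y⁻¹ ∈ A := by
    intro p hp
    have h1 : p * y * p⁻¹ ∈ Y := by
      have := conj_mem_cj (g := p) hy
      rwa [hfix p hp] at this
    rw [hYe] at h1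
    rcases (mem_sup_zp h hE hyE hyc).1 h1 with h2 | h2
    · exfalso
      apply hyA
      have h3 := hMA p hp _ h2
      have h4 : y = p * y * p⁻¹ := by
        have h5 : p * (p * y * p⁻¹) = p * y := by rw [h3]; group
        exact (mul_left_cancel h5).symm
      rw [h4]
      exact h2
    · rwa [hyi]
  set K : Subgroup M := (M ⊓ ct Y).subgroupOf M with hK
  have hKc : Nat.card K = Nat.card (M ⊓ ct Y : Subgroup G) := by
    rw [hK]
    exact Nat.card_congr (Subgroup.subgroupOfEquivOfLe inf_le_left).toEquiv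
  have hcard := Subgroup.card_eq_card_quotient_mul_card_subgroup K
  have hle : Nat.card (M ⧸ K) ≤ Nat.card A := by
    let f : M ⧸ K → A := fun x => Quotient.liftOn' x (fun p => ⟨(p : G) * y * (p : G)⁻¹ * y⁻¹, hpA p p.2⟩) (by
      intro p p' hpp
      rw [QuotientGroup.leftRel_apply] at hpp
      apply Subtype.ext
      show (p : G) * y * (p : G)⁻¹ * y⁻¹ = (p' : G) * y * (p' : G)⁻¹ * y⁻¹
      have h1 : ((p⁻¹ * p' : M) : G) ∈ ct Y := (Subgroup.mem_subgroupOf.1 hpp).2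
      have h2 := h1 y hy
      rw [Subgroup.coe_mul, Subgroup.coe_inv] at h2
      have h3 : (p' : G) * y * (p' : G)⁻¹ = p * y * (p : G)⁻¹ := by
        calc (p' : G) * y * (p' : G)⁻¹ = p * (((p : G)⁻¹ * p') * y) * (p' : G)⁻¹ := by group
          _ = p * (y * ((p : G)⁻¹ * p')) * (p' : G)⁻¹ := by rw [h2]
          _ = p * y * (p : G)⁻¹ := by group
      rw [h3])
    refine Nat.card_le_card_of_injective f ?_
    intro x x' hxx
    revert hxx
    refine Quotient.inductionOn₂' x x' ?_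
    intro p p' hpp
    have h1 : (p : G) * y * (p : G)⁻¹ * y⁻¹ = (p' : G) * y * (p' : G)⁻¹ * y⁻¹ := congrArg Subtype.val hpp
    have h2 : (p : G) * y * (p : G)⁻¹ = (p' : G) * y * (p' : G)⁻¹ := mul_right_cancel h1
    apply Quotient.sound'
    rw [QuotientGroup.leftRel_apply]
    rw [hK, Subgroup.mem_subgroupOf]
    refine ⟨(p⁻¹ * p' : M).2, ?_⟩
    rw [hYe]
    apply ct_sup h hE hyE hyc
    · exact hMA _ (p⁻¹ * p' : M).2
    · rw [Subgroup.coe_mul, Subgroup.coe_inv]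
      calc (p : G)⁻¹ * p' * y = (p : G)⁻¹ * (p' * y * (p' : G)⁻¹) * p' := by group
        _ = (p : G)⁻¹ * (p * y * (p : G)⁻¹) * p' := by rw [h2]
        _ = y * ((p : G)⁻¹ * p') := by group
  rw [hcard, hKc, mul_comm, h.card A hA] at *
  exact Nat.mul_le_mul_left _ hle

theorem T2 (h : Sys S q) (hno : ∀ A B D, NR S A B → D ∈ S → Cm D A → Cm D B → False) (n : NR S A B) (hM : Cl S M)
    (hAM : A ≤ M) : Nat.card M ≤ q ^ 2 := by
  classical
  by_contra hlt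
  push Not at hlt
  have hA : A ∈ S := n.hA
  have hMA : ∀ p ∈ M, p ∈ ct A := fun p hp a ha => hM.comm _ hp _ (hAM ha)
  have hMz : ∀ p ∈ M, p ∈ nz A := fun p hp => mem_nz_of fun x hx => by
    rw [conj_eq_iff.2 (hMA p hp x hx)]
    exact hx
  have hcjM : ∀ p ∈ M, ∀ Z : Subgroup G, Z ≤ M → cj p Z = Z := by
    intro p hp Z hZ
    apply mem_nz.1
    apply mem_nz_of
    intro x hx
    rw [conj_eq_iff.2 (hM.comm p hp x (hZ hx))]
    exact hx
  set Fix : Set (Subgroup G) := {Z | Z ∈ YA S A ∧ ∀ p ∈ M, cj p Z = Z} with hFix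
  have heven : Even Fix.ncard := by
    have h1 := par_fix M (hM.isP h) (YA S A) (fun p hp Z hZ => YA_cj_mem h (hMz p hp) hZ)
    have h2 := YA_even h n (fun D hD hDA hDB => hno A B D n hD hDA hDB)
    rw [Nat.even_iff] at h2 ⊢
    rw [hFix, ← h1, h2]
  -- m0
  have hm0 : ∃ m0 ∈ M, m0 ∉ A := by
    by_contra hc
    push Not at hc
    have h1 : M ≤ A := hc
    have h2 := Subgroup.card_le_of_le h1
    rw [h.card A hA] at h2
    have h3 := h.q1
    nlinarith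
  obtain ⟨m0, hm0M, hm0A⟩ := hm0
  set Y0 : Subgroup G := A ⊔ Subgroup.zpowers m0 with hY0
  have hm01 : m0 ≠ 1 := fun hc => hm0A (hc ▸ A.one_mem)
  have hY0le : Y0 ≤ M := sup_le hAM (by rwa [Subgroup.zpowers_le])
  have hm0Y0 : m0 ∈ Y0 := (le_sup_right : Subgroup.zpowers m0 ≤ Y0) (Subgroup.mem_zpowers m0)
  have hY0YA : Y0 ∈ YA S A := by
    obtain ⟨E, hE, hmE, -⟩ := hM.mem m0 hm0M hm01
    exact ⟨m0, hm0A, ⟨E, hE, hmE⟩, hMA m0 hm0M, rfl⟩
  have hY0Fix : Y0 ∈ Fix := ⟨hY0YA, fun p hp => hcjM p hp Y0 hY0le⟩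
  -- choice function
  let g : Subgroup G → G := fun H => if H = M then m0 else if hH : ∃ m ∈ H, m ∉ A then hH.choose else 1
  have hgM : g M = m0 := by simp [g]
  have hg : ∀ H : Subgroup G, (∃ m ∈ H, m ∉ A) → g H ∈ H ∧ g H ∉ A := by
    intro H hH
    by_cases hHM : H = M
    · rw [hHM, hgM]
      exact ⟨hm0M, hm0A⟩
    · have h1 : g H = hH.choose := by simp only [g, if_neg hHM, dif_pos hH]
      rw [h1]
      exact hH.choose_spec
  -- data for an element of Fix \ {Y0}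
  have key : ∀ Z ∈ Fix, Z ≠ Y0 → g (M ⊓ ct Z) ∈ M ⊓ ct Z ∧ g (M ⊓ ct Z) ∉ A ∧ g (M ⊓ ct Z) ∉ Z := by
    intro Z hZ hZ0
    have h1 := idx h hA hM hAM hZ.1 hZ.2
    have h2 : ∃ m ∈ M ⊓ ct Z, m ∉ A := by
      by_contra hc
      push Not at hc
      have h3 : M ⊓ ct Z ≤ A := hc
      have h4 := Subgroup.card_le_of_le h3
      rw [h.card A hA] at h4
      have h5 : Nat.card M ≤ q * q := le_trans h1 (Nat.mul_le_mul_right _ h4)
      nlinarith
    obtain ⟨h3, h4⟩ := hg _ h2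
    refine ⟨h3, h4, ?_⟩
    intro hc
    have h5 := (YA_elem h hA hZ.1 hc h4).1
    have h6 : Z ≤ M := by
      rw [h5]
      refine sup_le hAM ?_
      rw [Subgroup.zpowers_le]
      exact h3.1
    have h7 : M ⊓ ct Z = M := inf_eq_left.2 (fun p hp x hx => hM.comm p hp x (h6 hx))
    rw [h7, hgM] at h5
    exact hZ0 h5
  have hcomp : ∀ Z ∈ Fix, Z ≠ Y0 → ∃ T' ∈ S, g (M ⊓ ct Z) ∈ T' ∧ Cm A T' := by
    intro Z hZ hZ0
    obtain ⟨h1, h2, h3⟩ := key Z hZ hZ0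
    have h4 : g (M ⊓ ct Z) ≠ 1 := fun hc => h2 (hc ▸ A.one_mem)
    obtain ⟨T', hT', hmT', hT'M⟩ := hM.mem _ h1.1 h4
    exact ⟨T', hT', hmT', fun a ha x hx => hM.comm a (hAM ha) x (hT'M hx)⟩
  let f : Subgroup G → Subgroup G := fun Z => sh A (g (M ⊓ ct Z)) Z
  have hfct : ∀ Z ∈ Fix, Z ≠ Y0 → M ⊓ ct (f Z) = M ⊓ ct Z := by
    intro Z hZ hZ0
    obtain ⟨h1, h2, h3⟩ := key Z hZ hZ0
    ext p
    constructor
    · rintro ⟨hp, hp'⟩
      exact ⟨hp, (sh_ct h hA hZ.1 h1.2 (hMA p hp) (hM.comm p hp _ h1.1)).1 hp'⟩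
    · rintro ⟨hp, hp'⟩
      exact ⟨hp, (sh_ct h hA hZ.1 h1.2 (hMA p hp) (hM.comm p hp _ h1.1)).2 hp'⟩
  have hodd : Even (Fix \ {Y0}).ncard := by
    refine even_of_free (Fix \ {Y0}) (Set.toFinite _) f ?_ ?_ ?_
    · rintro Z ⟨hZ, hZ0⟩
      have hZ0' : Z ≠ Y0 := hZ0
      obtain ⟨h1, h2, h3⟩ := key Z hZ hZ0'
      obtain ⟨T', hT', hmT', hAT'⟩ := hcomp Z hZ hZ0'
      refine ⟨⟨sh_mem h hno hA hZ.1 hT' hAT' hmT' h1.2 h3, ?_⟩, ?_⟩
      · intro p hp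
        exact sh_cj h hA hZ.1 h1.2 (hMz p hp) (hM.comm p hp _ h1.1) (hZ.2 p hp)
      · intro hc
        have hc' : f Z = Y0 := hc
        obtain ⟨y, hy, hyA⟩ := YA_out hZ.1
        have h4 := sh_eq h hA hZ.1 h1.2 hy hyA
        have h5 : y * g (M ⊓ ct Z) ∈ Y0 := by
          rw [← hc']
          show y * g (M ⊓ ct Z) ∈ sh A (g (M ⊓ ct Z)) Z
          rw [h4]
          exact (le_sup_right : Subgroup.zpowers _ ≤ _) (Subgroup.mem_zpowers _)
        have h6 : y ∈ M := by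
          have h7 := M.mul_mem (hY0le h5) (M.inv_mem h1.1)
          simpa [mul_assoc] using h7
        have h8 : Z ≤ M := by
          rw [(YA_elem h hA hZ.1 hy hyA).1]
          exact sup_le hAM (by rwa [Subgroup.zpowers_le])
        have h9 : M ⊓ ct Z = M := inf_eq_left.2 (fun p hp x hx => hM.comm p hp x (h8 hx))
        rw [h9, hgM] at h5
        have h10 : y ∈ Y0 := by
          have h7 := Y0.mul_mem h5 (Y0.inv_mem hm0Y0)
          simpa [mul_assoc] using h7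
        apply hZ0'
        rw [(YA_elem h hA hZ.1 hy hyA).1, (YA_elem h hA hY0YA h10 hyA).1]
    · rintro Z ⟨hZ, hZ0⟩
      have hZ0' : Z ≠ Y0 := hZ0
      obtain ⟨h1, h2, h3⟩ := key Z hZ hZ0'
      obtain ⟨T', hT', hmT', hAT'⟩ := hcomp Z hZ hZ0'
      show sh A (g (M ⊓ ct (f Z))) (f Z) = Z
      rw [hfct Z hZ hZ0']
      exact sh_sh h hno hA hZ.1 hT' hAT' hmT' h1.2 h3
    · rintro Z ⟨hZ, hZ0⟩
      have hZ0' : Z ≠ Y0 := hZ0
      obtain ⟨h1, h2, h3⟩ := key Z hZ hZ0'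
      exact sh_ne h hA hZ.1 h1.2 h3
  have h1 : (Fix \ {Y0}).ncard + 1 = Fix.ncard := Set.ncard_sdiff_singleton_add_one hY0Fix (Set.toFinite _)
  rw [← h1] at heven
  rcases heven with ⟨a, ha⟩
  rcases hodd with ⟨b, hb⟩
  omega

end Pool.Agent.Helper72.WC
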